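import Mathlib
import Pool.Agent.H560.SQ.StmB
import Pool.Agent.H985.Chow.Asm

/-!
# Around squares: the Liouville function from the Moebius function (helper955)
-/

set_option autoImplicit false
set_option linter.unusedSectionVars false

namespace Pool.Agent.H955.SQ

open Polynomial
open scoped Classical
open Pool.Agent.H985.Chow (mob)
open Pool.Agent.H985.Chow.Asm
open Pool.Agent.H560.SQ (S_sq S_lam lio)

section ufd

variable {K : Type} [Field K]

lemma card_factors_mul {a b : K[X]} (ha : a ≠ 0) (hb : b ≠ 0) :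
    Multiset.card (UniqueFactorizationMonoid.factors (a * b)) =
      Multiset.card (UniqueFactorizationMonoid.factors a) +
        Multiset.card (UniqueFactorizationMonoid.factors b) := by
  rw [← Multiset.card_add]
  exact Multiset.card_eq_card_of_rel (UniqueFactorizationMonoid.factors_mul ha hb)

lemma lio_sq {e g : K[X]} (he : e ≠ 0) (hg0 : g ≠ 0) (hg : Squarefree g) :
    lio (e ^ 2 * g) = mob g := by
  unfold lio mob
  rw [if_pos hg, card_factors_mul (pow_ne_zero 2 he) hg0, sq, card_factors_mul he he, pow_add,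
    ← two_mul, pow_mul]
  norm_num

lemma exists_sq (n : ℕ) : ∀ f : K[X], f ≠ 0 → f.natDegree ≤ n →
    ∃ e g : K[X], e ≠ 0 ∧ Squarefree g ∧ f = e ^ 2 * g := by
  induction n with
  | zero =>
    intro f hf hd
    refine ⟨1, f, one_ne_zero, ?_, by ring⟩
    have h1 : IsUnit f := by
      rw [eq_C_of_natDegree_le_zero hd]
      refine isUnit_C.2 (isUnit_iff_ne_zero.2 fun h => hf ?_)
      rw [eq_C_of_natDegree_le_zero hd, h, C_0]
    exact h1.squarefree
  | succ n ih =>
    intro f hf hd
    by_cases hs : Squarefree f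
    · exact ⟨1, f, one_ne_zero, hs, by ring⟩
    · unfold Squarefree at hs
      push Not at hs
      obtain ⟨x, ⟨k, hk⟩, hx⟩ := hs
      have hx0 : x ≠ 0 := by
        rintro rfl
        apply hf
        rw [hk]
        ring
      have hk0 : k ≠ 0 := by
        rintro rfl
        apply hf
        rw [hk]
        ring
      have hxd : 0 < x.natDegree := by
        rw [Nat.pos_iff_ne_zero]
        intro h0
        apply hx
        rw [eq_C_of_natDegree_le_zero h0.le]
        refine isUnit_C.2 (isUnit_iff_ne_zero.2 fun h => hx0 ?_)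
        rw [eq_C_of_natDegree_le_zero h0.le, h, C_0]
      have hdd : f.natDegree = x.natDegree + x.natDegree + k.natDegree := by
        rw [hk, natDegree_mul (mul_ne_zero hx0 hx0) hk0, natDegree_mul hx0 hx0]
      obtain ⟨e, g, he, hg, hkk⟩ := ih k hk0 (by omega)
      exact ⟨x * e, g, mul_ne_zero hx0 he, hg, by rw [hk, hkk]; ring⟩

lemma exists_sq_monic {f : K[X]} (hf : f ≠ 0) :
    ∃ e g : K[X], e.Monic ∧ Squarefree g ∧ f = e ^ 2 * g := by
  obtain ⟨e, g, he, hg, h⟩ := exists_sq f.natDegree f hf le_rfl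
  have hc : e.leadingCoeff ≠ 0 := leadingCoeff_ne_zero.2 he
  have hCC : C e.leadingCoeff * C e.leadingCoeff⁻¹ = (1 : K[X]) := by
    rw [← C_mul, mul_inv_cancel₀ hc, C_1]
  refine ⟨C e.leadingCoeff⁻¹ * e, C e.leadingCoeff ^ 2 * g, ?_, ?_, ?_⟩
  · exact monic_C_mul_of_mul_leadingCoeff_eq_one (inv_mul_cancel₀ hc)
  · refine hg.squarefree_of_dvd ⟨C e.leadingCoeff⁻¹ ^ 2, ?_⟩
    linear_combination (-(C e.leadingCoeff * C e.leadingCoeff⁻¹ + 1) * g) * hCC
  · rw [h]
    linear_combination (-(C e.leadingCoeff * C e.leadingCoeff⁻¹ + 1) * e ^ 2 * g) * hCC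

lemma uniq {e e' g g' : K[X]} (he : e.Monic) (he' : e'.Monic) (hg : Squarefree g)
    (hg' : Squarefree g') (hg0 : g ≠ 0) (hg0' : g' ≠ 0) (h : e ^ 2 * g = e' ^ 2 * g') :
    e = e' := by
  have h1 := congrArg UniqueFactorizationMonoid.normalizedFactors h
  rw [UniqueFactorizationMonoid.normalizedFactors_mul (pow_ne_zero 2 he.ne_zero) hg0,
    UniqueFactorizationMonoid.normalizedFactors_mul (pow_ne_zero 2 he'.ne_zero) hg0',
    UniqueFactorizationMonoid.normalizedFactors_pow,
    UniqueFactorizationMonoid.normalizedFactors_pow] at h1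
  rw [UniqueFactorizationMonoid.squarefree_iff_nodup_normalizedFactors hg0,
    Multiset.nodup_iff_count_le_one] at hg
  rw [UniqueFactorizationMonoid.squarefree_iff_nodup_normalizedFactors hg0',
    Multiset.nodup_iff_count_le_one] at hg'
  have h2 : UniqueFactorizationMonoid.normalizedFactors e =
      UniqueFactorizationMonoid.normalizedFactors e' := by
    ext p
    have h3 := congrArg (Multiset.count p) h1
    rw [Multiset.count_add, Multiset.count_add, Multiset.count_nsmul, Multiset.count_nsmul] at h3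
    have h4 := hg p
    have h5 := hg' p
    omega
  have h3 := (UniqueFactorizationMonoid.associated_iff_normalizedFactors_eq_normalizedFactors
    he.ne_zero he'.ne_zero).2 h2
  exact eq_of_monic_of_associated he he' h3

/-- the contribution of `e` -/
noncomputable def T (e f : K[X]) : ℝ := if e ^ 2 ∣ f then (mob (f /ₘ e ^ 2) : ℝ) else 0

lemma T_mul {e k : K[X]} (he : e.Monic) : T e (e ^ 2 * k) = mob k := by
  unfold T
  rw [if_pos (dvd_mul_right _ _), mul_divByMonic_cancel_left _ (he.pow 2)]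

lemma T_eq {f e₀ g₀ e : K[X]} (he₀ : e₀.Monic) (hg : Squarefree g₀) (hf : f = e₀ ^ 2 * g₀)
    (hf0 : f ≠ 0) (he : e.Monic) : T e f = if e = e₀ then (mob g₀ : ℝ) else 0 := by
  by_cases h : e = e₀
  · rw [if_pos h, h, hf, T_mul he₀]
  · rw [if_neg h]
    by_cases hd : e ^ 2 ∣ f
    · obtain ⟨k, hk⟩ := hd
      rw [hk, T_mul he]
      have hks : ¬ Squarefree k := by
        intro hks
        apply h
        refine uniq he he₀ hks hg ?_ ?_ (hk.symm.trans hf)
        · rintro rfl
          rw [mul_zero] at hk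
          exact hf0 hk
        · rintro rfl
          rw [mul_zero] at hf
          exact hf0 hf
      unfold mob
      rw [if_neg hks]
      norm_num
    · unfold T
      rw [if_neg hd]

end ufd

section fin

variable {K : Type} [Field K] [Fintype K]

lemma monic_add (j : ℕ) (u : degreeLT K j) : (X ^ j + (u : K[X])).Monic :=
  monic_X_pow_add (mem_degreeLT.1 u.2)

lemma deg_add (j : ℕ) (u : degreeLT K j) : (X ^ j + (u : K[X])).natDegree = j := by
  have h1 : (X ^ j + (u : K[X])).degree = (j : WithBot ℕ) := by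
    rw [degree_add_eq_left_of_degree_lt]
    · exact degree_X_pow j
    · rw [degree_X_pow]
      exact mem_degreeLT.1 u.2
  exact natDegree_eq_of_degree_eq_some h1

lemma sumT (J : ℕ) {f e₀ g₀ : K[X]} (he₀ : e₀.Monic) (hg : Squarefree g₀)
    (hf : f = e₀ ^ 2 * g₀) (hf0 : f ≠ 0) :
    ∑ j ∈ Finset.range J, ∑ u : degreeLT K j, T (X ^ j + (u : K[X])) f =
      if e₀.natDegree < J then (mob g₀ : ℝ) else 0 := by
  have h1 : ∀ j ∈ Finset.range J, ∑ u : degreeLT K j, T (X ^ j + (u : K[X])) f =
      if j = e₀.natDegree then (mob g₀ : ℝ) else 0 := by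
    intro j _
    have h2 : ∀ u ∈ (Finset.univ : Finset (degreeLT K j)), T (X ^ j + (u : K[X])) f =
        if X ^ j + (u : K[X]) = e₀ then (mob g₀ : ℝ) else 0 := fun u _ =>
      T_eq he₀ hg hf hf0 (monic_add j u)
    rw [Finset.sum_congr rfl h2]
    by_cases hj : j = e₀.natDegree
    · rw [if_pos hj]
      have hmem : e₀ - X ^ j ∈ degreeLT K j := by
        rw [mem_degreeLT]
        have h3 : (e₀ - X ^ j).degree < e₀.degree := by
          refine degree_sub_lt_left ?_ he₀.ne_zero ?_
          · rw [degree_X_pow, degree_eq_natDegree he₀.ne_zero, hj]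
          · rw [he₀.leadingCoeff, leadingCoeff_X_pow]
        rw [degree_eq_natDegree he₀.ne_zero, ← hj] at h3
        exact h3
      rw [Finset.sum_eq_single (⟨e₀ - X ^ j, hmem⟩ : degreeLT K j)]
      · rw [if_pos]
        change X ^ j + (e₀ - X ^ j) = e₀
        ring
      · intro u _ hu
        rw [if_neg]
        intro h4
        apply hu
        apply Subtype.ext
        change (u : K[X]) = e₀ - X ^ j
        rw [← h4]
        ring
      · intro h4
        exact absurd (Finset.mem_univ _) h4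
    · rw [if_neg hj]
      refine Finset.sum_eq_zero fun u _ => ?_
      rw [if_neg]
      intro h4
      apply hj
      rw [← h4, deg_add]
  rw [Finset.sum_congr rfl h1, Finset.sum_ite_eq' (Finset.range J)]
  by_cases h : e₀.natDegree < J
  · rw [if_pos (Finset.mem_range.2 h), if_pos h]
  · rw [if_neg (fun h' => h (Finset.mem_range.1 h')), if_neg h]

variable [CharP K 2]

lemma add_self' (a : K[X]) : a + a = 0 := CharTwo.add_self_eq_zero a

lemma deriv_sq (a : K[X]) : derivative (a ^ 2) = 0 := by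
  have h2 : (2 : K[X]) = 0 := CharTwo.two_eq_zero
  rw [sq, derivative_mul]
  linear_combination (a * derivative a) * h2

lemma sq_of_deriv {f : K[X]} (h : derivative f = 0) : ∃ a, f = a ^ 2 := by
  obtain ⟨a, b, rfl⟩ := G_surj f
  unfold G at h ⊢
  rw [derivative_add, derivative_mul, deriv_sq, deriv_sq, derivative_X] at h
  have hb : b ^ 2 = 0 := by
    linear_combination h
  refine ⟨a, ?_⟩
  rw [hb, mul_zero, add_zero]

/-- the sum over the multiples of `e²` -/
lemma sum_mult (h : ℕ) {A e : K[X]} (he : e.Monic) (h2 : 2 * e.natDegree ≤ h) :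
    ∑ δ : degreeLT K h, T e (A ^ 2 + (δ : K[X])) =
      ∑ δ : degreeLT K (h - 2 * e.natDegree), (mob ((A /ₘ e) ^ 2 + (δ : K[X])) : ℝ) := by
  obtain ⟨r, hr⟩ : ∃ r, r = A %ₘ e := ⟨_, rfl⟩
  obtain ⟨B, hB⟩ : ∃ B, B = A /ₘ e := ⟨_, rfl⟩
  have hA : A = r + e * B := by
    rw [hr, hB]
    exact (modByMonic_add_div A e).symm
  have hA2 : A ^ 2 + r ^ 2 = e ^ 2 * B ^ 2 := by
    rw [hA, CharTwo.add_sq]
    linear_combination add_self' (r ^ 2)
  have hmem : ∀ δ : degreeLT K (h - 2 * e.natDegree), r ^ 2 + e ^ 2 * (δ : K[X]) ∈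
      degreeLT K h := by
    intro δ
    refine add_mem ?_ ?_
    · by_cases hr0 : r = 0
      · rw [hr0, zero_pow two_ne_zero]
        exact zero_mem _
      · apply mem_of_natDegree_lt
        right
        have h3 : r.degree < e.degree := by
          rw [hr]
          exact degree_modByMonic_lt A he
        have h4 := natDegree_lt_natDegree hr0 h3
        rw [natDegree_pow]
        omega
    · by_cases hδ : (δ : K[X]) = 0
      · rw [hδ, mul_zero]
        exact zero_mem _
      · apply mem_of_natDegree_lt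
        right
        have h3 := natDegree_lt_of_mem δ.2 hδ
        rw [natDegree_mul (pow_ne_zero 2 he.ne_zero) hδ, natDegree_pow]
        omega
  symm
  refine Fintype.sum_of_injective (fun δ : degreeLT K (h - 2 * e.natDegree) =>
    (⟨r ^ 2 + e ^ 2 * (δ : K[X]), hmem δ⟩ : degreeLT K h)) ?_ _ _ ?_ ?_
  · intro δ δ' hδ
    have h3 : r ^ 2 + e ^ 2 * (δ : K[X]) = r ^ 2 + e ^ 2 * (δ' : K[X]) := congrArg Subtype.val hδ
    have h4 := add_left_cancel h3
    exact Subtype.ext (mul_left_cancel₀ (pow_ne_zero 2 he.ne_zero) h4)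
  · intro δ hδ
    unfold T
    rw [if_neg]
    rintro ⟨k, hk⟩
    apply hδ
    have h3 : (δ : K[X]) = r ^ 2 + e ^ 2 * (k + B ^ 2) := by
      have h7 := add_self' (e ^ 2 * B ^ 2)
      linear_combination hk - hA2 - h7
    have h4 : k + B ^ 2 ∈ degreeLT K (h - 2 * e.natDegree) := by
      by_cases h0 : k + B ^ 2 = 0
      · rw [h0]
        exact zero_mem _
      · apply mem_of_natDegree_lt
        right
        have h5 : e ^ 2 * (k + B ^ 2) ∈ degreeLT K h := by
          have h6 := (hmem 0)
          rw [ZeroMemClass.coe_zero, mul_zero, add_zero] at h6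
          have h7 := sub_mem δ.2 h6
          rw [h3] at h7
          rw [add_sub_cancel_left] at h7
          exact h7
        have h6 := natDegree_lt_of_mem h5 (mul_ne_zero (pow_ne_zero 2 he.ne_zero) h0)
        rw [natDegree_mul (pow_ne_zero 2 he.ne_zero) h0, natDegree_pow] at h6
        omega
    exact ⟨⟨_, h4⟩, Subtype.ext h3.symm⟩
  · intro δ
    have h3 : A ^ 2 + (r ^ 2 + e ^ 2 * (δ : K[X])) = e ^ 2 * (B ^ 2 + (δ : K[X])) := by
      linear_combination hA2
    change (mob ((A /ₘ e) ^ 2 + (δ : K[X])) : ℝ) = T e (A ^ 2 + (r ^ 2 + e ^ 2 * (δ : K[X])))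
    rw [h3, T_mul he, hB]

/-- few `δ` have derivative zero -/
lemma card_Z (h : ℕ) : ((Finset.univ : Finset (degreeLT K h)).filter
    fun δ : degreeLT K h => derivative (δ : K[X]) = 0).card ≤ Fintype.card K ^ ((h + 1) / 2) := by
  rw [← card_deg ((h + 1) / 2), ← Finset.card_univ,
    ← Finset.card_image_of_injective _ (f := fun v : degreeLT K h => (v : K[X]))
      Subtype.coe_injective]
  refine (Finset.card_le_card (t := (Finset.univ : Finset (degreeLT K ((h + 1) / 2))).image
    fun v : degreeLT K ((h + 1) / 2) => (v : K[X]) ^ 2) ?_).trans Finset.card_image_le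
  intro f hf
  obtain ⟨δ, hδ, rfl⟩ := Finset.mem_image.1 hf
  obtain ⟨a, ha⟩ := sq_of_deriv (Finset.mem_filter.1 hδ).2
  refine Finset.mem_image.2 ⟨⟨a, ?_⟩, Finset.mem_univ _, ha.symm⟩
  by_cases h0 : a = 0
  · rw [h0]
    exact zero_mem _
  · apply mem_of_natDegree_lt
    right
    have h1 := natDegree_lt_of_mem δ.2 (by rw [ha]; exact pow_ne_zero 2 h0)
    rw [ha, natDegree_pow] at h1
    omega

lemma abs_lio (f : K[X]) : |(lio f : ℝ)| ≤ 1 := by
  unfold lio
  push_cast
  rw [abs_pow, abs_neg, abs_one, one_pow]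

/-- the pointwise identity -/
lemma point {h : ℕ} {A : K[X]} (hA : A.Monic) (hh : h ≤ 2 * A.natDegree) (δ : degreeLT K h) :
    ∑ j ∈ Finset.range ((h + 1) / 2), ∑ u : degreeLT K j, T (X ^ j + (u : K[X]))
      (A ^ 2 + (δ : K[X])) =
      if derivative (δ : K[X]) = 0 then 0 else (lio (A ^ 2 + (δ : K[X])) : ℝ) := by
  have hA2 : (A ^ 2).Monic := hA.pow 2
  have hA2d : (A ^ 2).natDegree = 2 * A.natDegree := natDegree_pow A 2
  have hdeg : (δ : K[X]).degree < (A ^ 2).degree := by
    refine (mem_degreeLT.1 δ.2).trans_le ?_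
    rw [degree_eq_natDegree hA2.ne_zero, hA2d]
    exact_mod_cast hh
  have hfm : (A ^ 2 + (δ : K[X])).Monic := hA2.add_of_left hdeg
  have hfd : (A ^ 2 + (δ : K[X])).natDegree = 2 * A.natDegree := by
    rw [natDegree_add_eq_left_of_degree_lt hdeg, hA2d]
  obtain ⟨e, g, he, hg, hf⟩ := exists_sq_monic hfm.ne_zero
  have hg0 : g ≠ 0 := by
    rintro rfl
    rw [mul_zero] at hf
    exact hfm.ne_zero hf
  have hder : derivative (A ^ 2 + (δ : K[X])) = derivative (δ : K[X]) := by
    rw [derivative_add, deriv_sq, zero_add]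
  have hder2 : derivative (δ : K[X]) = e ^ 2 * derivative g := by
    rw [← hder, hf, derivative_mul, deriv_sq, zero_mul, zero_add]
  rw [sumT ((h + 1) / 2) he hg hf hfm.ne_zero]
  by_cases hd : derivative (δ : K[X]) = 0
  · rw [if_pos hd, if_neg]
    rw [hd] at hder2
    have hg' : derivative g = 0 := by
      rcases mul_eq_zero.1 hder2.symm with h1 | h1
      · exact absurd h1 (pow_ne_zero 2 he.ne_zero)
      · exact h1
    obtain ⟨k, hk⟩ := sq_of_deriv hg'
    have hku : IsUnit k := hg k (by rw [hk, sq])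
    have hk0 : k.natDegree = 0 := natDegree_eq_zero_of_isUnit hku
    have h1 := hfd
    rw [hf, natDegree_mul (pow_ne_zero 2 he.ne_zero) hg0, hk, natDegree_pow, natDegree_pow,
      hk0] at h1
    omega
  · rw [if_neg hd, if_pos, hf, lio_sq he.ne_zero hg0 hg]
    have hg' : derivative g ≠ 0 := by
      intro h1
      rw [h1, mul_zero] at hder2
      exact hd hder2
    have h1 : (derivative (δ : K[X])).natDegree < h := by
      have hδ0 : (δ : K[X]) ≠ 0 := by
        intro h0
        rw [h0, derivative_zero] at hd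
        exact hd rfl
      have h2 := natDegree_lt_of_mem δ.2 hδ0
      have h3 := natDegree_derivative_le (δ : K[X])
      omega
    rw [hder2, natDegree_mul (pow_ne_zero 2 he.ne_zero) hg', natDegree_pow] at h1
    omega

end fin

lemma geo1 (q : ℝ) (hq : 2 ≤ q) (h J : ℕ) (hJ : J ≤ h) :
    ∑ j ∈ Finset.range J, q ^ (h - j) + 2 * q ^ (h - J) ≤ 2 * q ^ h := by
  induction J with
  | zero => simp
  | succ J ih =>
    have h1 := ih (by omega)
    rw [Finset.sum_range_succ]
    have h2 : q ^ (h - J) = q ^ (h - (J + 1)) * q := by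
      rw [← pow_succ]
      congr 1
      omega
    have h3 : 0 < q ^ (h - (J + 1)) := by positivity
    nlinarith

lemma geo2 (q : ℝ) (hq : 2 ≤ q) (J : ℕ) : ∑ j ∈ Finset.range J, q ^ j ≤ q ^ J := by
  induction J with
  | zero => simp
  | succ J ih =>
    rw [Finset.sum_range_succ, pow_succ]
    have h3 : 0 < q ^ J := by positivity
    nlinarith

theorem lam (hq : S_sq) : S_lam := by
  intro K _ _ _ ε hε
  obtain ⟨h₀, hh₀⟩ := hq K (ε / 4) (by positivity)
  obtain ⟨q, hqd⟩ : ∃ q : ℝ, q = (Fintype.card K : ℝ) := ⟨_, rfl⟩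
  have hq2 : 2 ≤ q := by
    rw [hqd]
    have : 1 < Fintype.card K := Fintype.one_lt_card
    exact_mod_cast this
  have hq0 : 0 < q := by linarith
  obtain ⟨m, hm⟩ := pow_unbounded_of_one_lt ((1 + q ^ h₀) * (2 / ε)) (by linarith : 1 < q)
  refine ⟨2 * m, fun h hh A hA hhA => ?_⟩
  rw [window_finsum, ← hqd]
  obtain ⟨J, hJ⟩ : ∃ J, J = (h + 1) / 2 := ⟨_, rfl⟩
  -- the decomposition
  have e1 : ∑ δ : degreeLT K h, (lio (A ^ 2 + (δ : K[X])) : ℝ) =
      (∑ δ ∈ (Finset.univ : Finset (degreeLT K h)).filter fun δ : degreeLT K h => derivative (δ : K[X]) = 0,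
        (lio (A ^ 2 + (δ : K[X])) : ℝ)) +
      ∑ j ∈ Finset.range J, ∑ u : degreeLT K j, ∑ δ : degreeLT K h,
        T (X ^ j + (u : K[X])) (A ^ 2 + (δ : K[X])) := by
    have e2 : ∑ j ∈ Finset.range J, ∑ u : degreeLT K j, ∑ δ : degreeLT K h,
        T (X ^ j + (u : K[X])) (A ^ 2 + (δ : K[X])) =
        ∑ δ : degreeLT K h, ∑ j ∈ Finset.range J, ∑ u : degreeLT K j,
          T (X ^ j + (u : K[X])) (A ^ 2 + (δ : K[X])) := by
      rw [Finset.sum_comm]
      refine Finset.sum_congr rfl fun j _ => ?_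
      rw [Finset.sum_comm]
    rw [e2, Finset.sum_filter, ← Finset.sum_add_distrib]
    refine Finset.sum_congr rfl fun δ _ => ?_
    rw [hJ, point hA hhA δ]
    split_ifs
    · rw [add_zero]
    · rw [zero_add]
  rw [e1]
  -- the squares
  have b1 : |∑ δ ∈ (Finset.univ : Finset (degreeLT K h)).filter
      fun δ : degreeLT K h => derivative (δ : K[X]) = 0, (lio (A ^ 2 + (δ : K[X])) : ℝ)| ≤ q ^ J := by
    refine (Finset.abs_sum_le_sum_abs _ _).trans ?_
    refine (Finset.sum_le_sum fun (δ : degreeLT K h) _ =>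
      abs_lio (A ^ 2 + (δ : K[X]))).trans ?_
    rw [Finset.sum_const, nsmul_eq_mul, mul_one, hqd, hJ]
    have := card_Z (K := K) h
    exact_mod_cast this
  -- one `e`
  have b2 : ∀ j ∈ Finset.range J, ∀ u : degreeLT K j, |∑ δ : degreeLT K h,
        T (X ^ j + (u : K[X])) (A ^ 2 + (δ : K[X]))| ≤ ε / 4 * q ^ (h - 2 * j) + q ^ h₀ := by
    intro j hj u
    have hj' := Finset.mem_range.1 hj
    have hem := monic_add j u
    have hed := deg_add j u
    rw [sum_mult h hem (by rw [hed]; omega), hed]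
    by_cases hc : h₀ ≤ h - 2 * j
    · have hdeg : (X ^ j + (u : K[X])).degree ≤ A.degree := by
        rw [degree_eq_natDegree hem.ne_zero, hed, degree_eq_natDegree hA.ne_zero]
        have : j ≤ A.natDegree := by omega
        exact_mod_cast this
      have hBm : (A /ₘ (X ^ j + (u : K[X]))).Monic := by
        unfold Monic
        rw [leadingCoeff_divByMonic_of_monic hem hdeg]
        exact hA
      have hBd : (A /ₘ (X ^ j + (u : K[X]))).natDegree = A.natDegree - j := by
        rw [natDegree_divByMonic _ hem, hed]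
      have h3 := hh₀ (h - 2 * j) hc (A /ₘ (X ^ j + (u : K[X]))) hBm (by rw [hBd]; omega)
      rw [window_finsum, ← hqd] at h3
      have h4 : 0 < q ^ h₀ := by positivity
      linarith
    · refine (Finset.abs_sum_le_sum_abs _ _).trans ?_
      refine (Finset.sum_le_sum fun δ _ => abs_mob _).trans ?_
      rw [Finset.sum_const, nsmul_eq_mul, mul_one, Finset.card_univ, card_deg]
      push_cast
      rw [← hqd]
      have h3 : q ^ (h - 2 * j) ≤ q ^ h₀ := pow_le_pow_right₀ (by linarith) (by omega)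
      have h4 : 0 ≤ ε / 4 * q ^ (h - 2 * j) := by positivity
      linarith
  have b3 : |∑ j ∈ Finset.range J, ∑ u : degreeLT K j, ∑ δ : degreeLT K h,
        T (X ^ j + (u : K[X])) (A ^ 2 + (δ : K[X]))| ≤
      ∑ j ∈ Finset.range J, (ε / 4 * q ^ (h - j) + q ^ h₀ * q ^ j) := by
    refine (Finset.abs_sum_le_sum_abs _ _).trans (Finset.sum_le_sum fun j hj => ?_)
    refine (Finset.abs_sum_le_sum_abs _ _).trans ?_
    refine (Finset.sum_le_sum fun u _ => b2 j hj u).trans (le_of_eq ?_)
    have hj' := Finset.mem_range.1 hj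
    rw [Finset.sum_const, nsmul_eq_mul, Finset.card_univ, card_deg]
    push_cast
    rw [← hqd]
    have h3 : q ^ (h - j) = q ^ j * q ^ (h - 2 * j) := by
      rw [← pow_add]
      congr 1
      omega
    rw [h3]
    ring
  have b4 : ∑ j ∈ Finset.range J, (ε / 4 * q ^ (h - j) + q ^ h₀ * q ^ j) ≤
      ε / 2 * q ^ h + q ^ h₀ * q ^ J := by
    rw [Finset.sum_add_distrib, ← Finset.mul_sum, ← Finset.mul_sum]
    have h3 := geo1 q hq2 h J (by omega)
    have h4 := geo2 q hq2 J
    have h5 : 0 < q ^ (h - J) := by positivity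
    have h6 : ε / 4 * ∑ j ∈ Finset.range J, q ^ (h - j) ≤ ε / 4 * (2 * q ^ h) :=
      mul_le_mul_of_nonneg_left (by linarith) (by positivity)
    have h7 : q ^ h₀ * ∑ j ∈ Finset.range J, q ^ j ≤ q ^ h₀ * q ^ J :=
      mul_le_mul_of_nonneg_left h4 (by positivity)
    linarith
  have b5 : (1 + q ^ h₀) * q ^ J ≤ ε / 2 * q ^ h := by
    have h3 : q ^ m ≤ q ^ (h - J) := pow_le_pow_right₀ (by linarith) (by omega)
    have h4 : (1 + q ^ h₀) * (2 / ε) ≤ q ^ (h - J) := hm.le.trans h3
    have h5 : 1 + q ^ h₀ ≤ ε / 2 * q ^ (h - J) := by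
      have h6 := mul_le_mul_of_nonneg_left h4 (by positivity : 0 ≤ ε / 2)
      have h7 : ε / 2 * ((1 + q ^ h₀) * (2 / ε)) = 1 + q ^ h₀ := by
        field_simp
      rw [h7] at h6
      exact h6
    have h6 : q ^ h = q ^ (h - J) * q ^ J := by
      rw [← pow_add]
      congr 1
      omega
    rw [h6, ← mul_assoc]
    exact mul_le_mul_of_nonneg_right h5 (by positivity)
  refine (abs_add_le _ _).trans ?_
  linarith

end Pool.Agent.H955.SQ
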